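import Mathlib
import Pool.Agent.H629R3.HolderLpMain

set_option autoImplicit false

namespace Pool.Agent.Results.MP_fe2450_an.HolderEllP

/-- For every `p > 1` there is a Hölder exponent `α > 0`, depending only on `p`, such that every
continuous real function `f` on the circle has a change of variable `h` (a homeomorphism of the
circle) which is Hölder of order `α` with constant `40` and for which the Fourier coefficients of
`f ∘ h` are `p`-summable. -/
theorem result : ∀ p : ℝ, 1 < p → ∃ α : ℝ, 0 < α ∧ α ≤ 1 ∧
    ∀ f : C(UnitAddCircle, ℝ), ∃ h : UnitAddCircle ≃ₜ UnitAddCircle,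
      (∀ x y : UnitAddCircle, dist (h x) (h y) ≤ 40 * dist x y ^ α) ∧
      Summable (fun n : ℤ =>
        ‖fourierCoeff (fun x : UnitAddCircle => ((f (h x) : ℝ) : ℂ)) n‖ ^ p) :=
  fun p hp => H629R3.Stair.main p hp

end Pool.Agent.Results.MP_fe2450_an.HolderEllP
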